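import Pool.Agent.L7h60.SQ.Inv
import Pool.Agent.L7h15.BK.Spl
import Pool.Agent.L7h15.SQ.Stm

/-!
# Project SQ (helper15): [SPL]
-/

set_option autoImplicit false
set_option linter.unusedSectionVars false

namespace Pool.Agent.L7h60.SQ

open IsDedekindDomain NumberField IsLocalRing Pool.Agent.W189.NF
open Pool.Agent.H921R2.TatePole (nm two_le_nm)
open Pool.Agent.K4H55.CX (facF cpow_two luc)
open Pool.Agent.K4H55.BI (IQ)
open Pool.Agent.K4H55.BD (low mem_low)
open Pool.Agent.L7h15.BK (cv cv_map cv_Δ npt loc_good norm_gt fac_eq Deg1 deg1_split exists_iso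
  split_norm exists_above card_above norm_above)

section compl

variable {K F : Type} [Field K] [NumberField K] [Field F] [NumberField F] [Algebra K F]
  {v : HeightOneSpectrum (𝓞 K)} {u : HeightOneSpectrum (𝓞 F)}

/-- the isomorphism of the rings of integers of the completions -/
noncomputable def intEquiv (e : v.adicCompletion K ≃+* u.adicCompletion F)
    (he : ∀ y, (Valued.v (e y) : L7h15.BK.G0) = Valued.v y) :
    v.adicCompletionIntegers K ≃+* u.adicCompletionIntegers F where
  toFun x := ⟨e x.1, by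
    rw [HeightOneSpectrum.mem_adicCompletionIntegers, he]
    exact (HeightOneSpectrum.mem_adicCompletionIntegers _ _ _).1 x.2⟩
  invFun y := ⟨e.symm y.1, by
    rw [HeightOneSpectrum.mem_adicCompletionIntegers, ← he, e.apply_symm_apply]
    exact (HeightOneSpectrum.mem_adicCompletionIntegers _ _ _).1 y.2⟩
  left_inv x := Subtype.ext (e.symm_apply_apply x.1)
  right_inv y := Subtype.ext (e.apply_symm_apply y.1)
  map_mul' x y := Subtype.ext (map_mul e x.1 y.1)
  map_add' x y := Subtype.ext (map_add e x.1 y.1)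

/-- the local factors at the places that split completely -/
theorem loc_split (h : Deg1 v u) (a b : K) (hΔ : 4 * a ^ 3 + 27 * b ^ 2 ≠ 0) :
    aV (cv (algebraMap K F a) (algebraMap K F b)) u = aV (cv a b) v ∧
      eV (cv (algebraMap K F a) (algebraMap K F b)) u = eV (cv a b) v := by
  obtain ⟨e, he1, he2⟩ := exists_iso h
  have hfin := finite_res v
  have hbase : (cv (algebraMap K F a) (algebraMap K F b)).baseChange (u.adicCompletion F) =
      ((cv a b).baseChange (v.adicCompletion K)).map (e : v.adicCompletion K →+* _) := by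
    unfold WeierstrassCurve.baseChange
    rw [cv_map, cv_map, cv_map]
    congr 1
    · exact (he1 a).symm
    · exact (he1 b).symm
  have h0 : ((cv a b).baseChange (v.adicCompletion K)).Δ ≠ 0 := by
    unfold WeierstrassCurve.baseChange
    rw [WeierstrassCurve.map_Δ, cv_Δ]
    have h1 : (-16 : K) * (4 * a ^ 3 + 27 * b ^ 2) ≠ 0 := mul_ne_zero (by norm_num) hΔ
    exact (map_ne_zero (algebraMap K (v.adicCompletion K))).2 h1
  unfold aV eV
  rw [hbase]
  exact loc_iso (v.adicCompletionIntegers K) e (intEquiv e he2) (fun x => rfl) _ h0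

end compl

open Classical in
/-- **SPL** -/
theorem s_SPL : L7h15.SQ.S_SPL := by
  intro K _ _ _ σ δ n a b c hIQ hΔ hloc L _ _ _ _ hsp s hs
  obtain ⟨d, hd⟩ : ∃ d : 𝓞 K, d = 2 * (4 * a ^ 3 + 27 * b ^ 2) := ⟨_, rfl⟩
  obtain ⟨E, hE⟩ : ∃ E : WeierstrassCurve L, E = cv (algebraMap K L (a : K)) (algebraMap K L (b : K)) :=
    ⟨_, rfl⟩
  rw [← hE]
  have hΔK : 4 * (a : K) ^ 3 + 27 * (b : K) ^ 2 ≠ 0 := by
    intro h
    apply hΔ
    apply RingOfIntegers.coe_injective
    have e4 : algebraMap (𝓞 K) K 4 = 4 := map_ofNat _ 4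
    have e27 : algebraMap (𝓞 K) K 27 = 27 := map_ofNat _ 27
    simp only [map_add, map_mul, map_pow, map_zero, e4, e27]
    exact h
  -- the good places
  have hgood : ∀ v : HeightOneSpectrum (𝓞 K), d ∉ v.asIdeal → n ∉ v.asIdeal ∧
      c v.asIdeal = (Ideal.absNorm v.asIdeal : ℂ) -
        npt (Ideal.Quotient.mk v.asIdeal a) (Ideal.Quotient.mk v.asIdeal b) := by
    intro v hv
    rw [hd] at hv
    obtain ⟨h1, h2⟩ := loc_good (a := a) (b := b) hv
    obtain ⟨h3, h4⟩ := hloc v
    have hnm : nm v = Ideal.absNorm v.asIdeal := rfl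
    constructor
    · intro hn
      rw [if_pos hn, h2] at h4
      have h5 : nm v = 0 := by exact_mod_cast h4
      have := two_le_nm v
      omega
    · rw [h3, h1, hnm]
      push_cast
      ring
  -- the Euler product over `L`
  have hPr := (LSeries_hasProd E hs).2
  set Ab : HeightOneSpectrum (𝓞 K) → Type := fun v => {u : HeightOneSpectrum (𝓞 L) //
    u.asIdeal.comap (algebraMap (𝓞 K) (𝓞 L)) = v.asIdeal} with hAb
  have hAfin : ∀ v, Finite (Ab v) := by
    intro v
    obtain ⟨u, hu⟩ := exists_above (F := L) v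
    have h1 := card_above hu
    refine Nat.finite_of_card_ne_zero fun h0 => ?_
    have h2 : Nat.card {u : HeightOneSpectrum (𝓞 L) //
      u.asIdeal.comap (algebraMap (𝓞 K) (𝓞 L)) = v.asIdeal} = 0 := h0
    rw [h2, zero_mul, zero_mul] at h1
    exact Nat.card_pos.ne h1
  have hAft : ∀ v, Fintype (Ab v) := fun v => Fintype.ofFinite _
  have h2 : HasProd (fun v : HeightOneSpectrum (𝓞 K) => ∏ u : Ab v,
      (1 - (aV E u.1 : ℂ) * (nm u.1 : ℂ) ^ (-s) + (eV E u.1 : ℂ) * ((nm u.1 : ℂ) ^ (-s)) ^ 2)⁻¹)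
      (E.LSeries s) := by
    let e : (Σ v : HeightOneSpectrum (𝓞 K), Ab v) ≃ HeightOneSpectrum (𝓞 L) :=
      { toFun := fun x => x.2.1
        invFun := fun u => ⟨low u, ⟨u, rfl⟩⟩
        left_inv := by
          rintro ⟨v, u, hu⟩
          have hv : low (K := K) u = v := HeightOneSpectrum.ext hu
          subst hv
          rfl
        right_inv := fun u => rfl }
    have h3 := e.hasProd_iff.2 hPr
    refine h3.sigma fun v => ?_
    exact hasProd_fintype _ (.unconditional _)
  refine h2.congr_fun fun v => ?_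
  have e1 : ∏ᶠ u : Ab v, facF n c v (Ideal.absNorm u.1.asIdeal) s =
      ∏ u : Ab v, facF n c v (Ideal.absNorm u.1.asIdeal) s := finprod_eq_prod_of_fintype _
  refine e1.trans ?_
  refine Finset.prod_congr rfl fun u _ => ?_
  by_cases hv : d ∈ v.asIdeal
  · -- the places that split
    obtain ⟨ψ⟩ := hsp v (hd ▸ hv)
    have hN := split_norm ψ u.2
    obtain ⟨l1, l2⟩ := loc_split (deg1_split ψ u.2) (a : K) (b : K) hΔK
    rw [hE, l1, l2]
    obtain ⟨h3, h4⟩ := hloc v
    have hnm : nm u.1 = Ideal.absNorm v.asIdeal := hN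
    rw [hnm, h4, ← h3, hN]
    unfold facF
    have h5 : Nat.log (Ideal.absNorm v.asIdeal) (Ideal.absNorm v.asIdeal) = 1 := by
      have := Nat.log_pow (norm_gt v) 1
      rwa [pow_one] at this
    rw [h5, pow_one]
    by_cases hn : n ∈ v.asIdeal
    · rw [if_pos hn, if_pos hn, zero_mul, add_zero]
    · rw [if_neg hn, if_neg hn, cpow_two _ (by have := norm_gt v; omega)]
      rfl
  · obtain ⟨h3, h4⟩ := hgood v hv
    rw [hE]
    exact (fac_eq u.2 (hd ▸ hv) h3 h4 (norm_above u.2).1 s).symm

end Pool.Agent.L7h60.SQ
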