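import Pool.Agent.L7h62.SQ.Stm

/-! Project SQ (helper62, MP_1ef7cf_nt): part ABL, the abelian condition for a square root. -/

set_option autoImplicit false

namespace Pool.Agent.L7h60.SQ

open Module Pool.Agent.L7h62.SQ

section rel
variable {K H : Type} [Field K] [Field H] [Algebra K H] {u : H}

/-- the relation of the proof: the lifts of `σ` and `ρ` commute -/
def RR (u : H) (σ ρ : H ≃ₐ[K] H) : Prop :=
  ∀ a b : H, a ^ 2 * u = σ u → b ^ 2 * u = ρ u → σ b * a = ρ a * b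

theorem sgn (hu : u ≠ 0) {a a' v : H} (h : a ^ 2 * u = v) (h' : a' ^ 2 * u = v) :
    a' = a ∨ a' = -a := by
  have h1 : a' ^ 2 = a ^ 2 := mul_right_cancel₀ hu (h'.trans h.symm)
  exact sq_eq_sq_iff_eq_or_eq_neg.1 h1

theorem RR_of (hu : u ≠ 0) {σ ρ : H ≃ₐ[K] H} {a b : H} (ha : a ^ 2 * u = σ u)
    (hb : b ^ 2 * u = ρ u) (h : σ b * a = ρ a * b) : RR u σ ρ := by
  intro a' b' ha' hb'
  rcases sgn hu ha ha' with rfl | rfl <;> rcases sgn hu hb hb' with rfl | rfl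
  · exact h
  · rw [map_neg, neg_mul, h, mul_neg]
  · rw [map_neg, neg_mul, mul_neg, h]
  · rw [map_neg, map_neg, neg_mul_neg, neg_mul_neg, h]

theorem RR.symm {σ ρ : H ≃ₐ[K] H} (h : RR u σ ρ) : RR u ρ σ :=
  fun a b ha hb => (h b a hb ha).symm

theorem RR_self (hu : u ≠ 0) (hex : ∀ σ : H ≃ₐ[K] H, ∃ a : H, a ^ 2 * u = σ u)
    (σ : H ≃ₐ[K] H) : RR u σ σ := by
  obtain ⟨a, ha⟩ := hex σ
  exact RR_of hu ha ha rfl

theorem RR_one (hu : u ≠ 0) (hex : ∀ σ : H ≃ₐ[K] H, ∃ a : H, a ^ 2 * u = σ u)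
    (ρ : H ≃ₐ[K] H) : RR u 1 ρ := by
  obtain ⟨b, hb⟩ := hex ρ
  refine RR_of hu (a := 1) (b := b) ?_ hb ?_
  · rw [AlgEquiv.one_apply]; ring
  · rw [AlgEquiv.one_apply, map_one]; ring

theorem RR_mul (hu : u ≠ 0) (hcomm : ∀ σ ρ : H ≃ₐ[K] H, ∀ x, σ (ρ x) = ρ (σ x))
    (hex : ∀ σ : H ≃ₐ[K] H, ∃ a : H, a ^ 2 * u = σ u)
    {σ₁ σ₂ ρ : H ≃ₐ[K] H} (h1 : RR u σ₁ ρ) (h2 : RR u σ₂ ρ) : RR u (σ₁ * σ₂) ρ := by
  obtain ⟨a₁, ha₁⟩ := hex σ₁
  obtain ⟨a₂, ha₂⟩ := hex σ₂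
  obtain ⟨b, hb⟩ := hex ρ
  refine RR_of hu (a := σ₁ a₂ * a₁) (b := b) ?_ hb ?_
  · rw [AlgEquiv.mul_apply, ← ha₂, map_mul, map_pow, ← ha₁]; ring
  · have e1 := h1 a₁ b ha₁ hb
    have e2 := h2 a₂ b ha₂ hb
    calc (σ₁ * σ₂) b * (σ₁ a₂ * a₁) = σ₁ (σ₂ b * a₂) * a₁ := by
          rw [AlgEquiv.mul_apply, map_mul]; ring
      _ = σ₁ (ρ a₂ * b) * a₁ := by rw [e2]
      _ = σ₁ (ρ a₂) * (σ₁ b * a₁) := by rw [map_mul]; ring
      _ = ρ (σ₁ a₂) * (ρ a₁ * b) := by rw [e1, hcomm]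
      _ = _ := by rw [map_mul]; ring

theorem RR_pow (hu : u ≠ 0) (hcomm : ∀ σ ρ : H ≃ₐ[K] H, ∀ x, σ (ρ x) = ρ (σ x))
    (hex : ∀ σ : H ≃ₐ[K] H, ∃ a : H, a ^ 2 * u = σ u)
    {σ ρ : H ≃ₐ[K] H} (h : RR u σ ρ) (i : ℕ) : RR u (σ ^ i) ρ := by
  induction i with
  | zero => rw [pow_zero]; exact RR_one hu hex ρ
  | succ i ih => rw [pow_succ]; exact RR_mul hu hcomm hex ih h

theorem RR_conj (hu : u ≠ 0) {c : H ≃ₐ[K] H} (hc : c u = u⁻¹)
    (hex : ∀ σ : H ≃ₐ[K] H, ∃ a : H, a ^ 2 * u = σ u ∧ c a = a⁻¹) (ρ : H ≃ₐ[K] H) :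
    RR u c ρ := by
  obtain ⟨b, hb, hcb⟩ := hex ρ
  have hb0 : b ≠ 0 := by
    rintro rfl
    rw [zero_pow two_ne_zero, zero_mul] at hb
    exact hu ((map_eq_zero ρ).1 hb.symm)
  refine RR_of hu (a := u⁻¹) (b := b) ?_ hb ?_
  · rw [hc]; field_simp
  · rw [hcb, map_inv₀, ← hb]; field_simp

theorem RR_sq (hu : u ≠ 0) (hcomm : ∀ σ ρ : H ≃ₐ[K] H, ∀ x, σ (ρ x) = ρ (σ x))
    (hex : ∀ σ : H ≃ₐ[K] H, ∃ a : H, a ^ 2 * u = σ u) (τ ρ : H ≃ₐ[K] H) :
    RR u (τ ^ 2) ρ := by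
  obtain ⟨a, ha⟩ := hex τ
  obtain ⟨b, hb⟩ := hex ρ
  have h1 : (τ b * a) ^ 2 * u = (ρ a * b) ^ 2 * u := by
    calc (τ b * a) ^ 2 * u = τ (b ^ 2) * (a ^ 2 * u) := by rw [map_pow]; ring
      _ = τ (b ^ 2 * u) := by rw [ha, ← map_mul]
      _ = ρ (τ u) := by rw [hb, hcomm]
      _ = ρ (a ^ 2 * u) := by rw [ha]
      _ = ρ (a ^ 2) * (b ^ 2 * u) := by rw [hb, ← map_mul]
      _ = _ := by rw [map_pow]; ring
  have h2 : (τ b * a) ^ 2 = (ρ a * b) ^ 2 := mul_right_cancel₀ hu h1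
  obtain ⟨ε, hε, hε2⟩ : ∃ ε : H, (ε = 1 ∨ ε = -1) ∧ τ b * a = ε * (ρ a * b) := by
    rcases sq_eq_sq_iff_eq_or_eq_neg.1 h2 with h | h
    · exact ⟨1, Or.inl rfl, by rw [h, one_mul]⟩
    · exact ⟨-1, Or.inr rfl, by rw [h]; ring⟩
  have hτε : τ ε = ε := by
    rcases hε with rfl | rfl
    · exact map_one τ
    · rw [map_neg, map_one]
  have hεε : ε * ε = 1 := by
    rcases hε with rfl | rfl <;> ring
  refine RR_of hu (a := τ a * a) (b := b) ?_ hb ?_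
  · rw [pow_two τ, AlgEquiv.mul_apply, ← ha, map_mul, map_pow, ← ha]; ring
  · calc (τ ^ 2) b * (τ a * a) = τ (τ b * a) * a := by
          rw [pow_two τ, AlgEquiv.mul_apply, map_mul]; ring
      _ = τ (ε * (ρ a * b)) * a := by rw [hε2]
      _ = ε * (τ (ρ a) * (τ b * a)) := by rw [map_mul, map_mul, hτε]; ring
      _ = ε * (ρ (τ a) * (ε * (ρ a * b))) := by rw [hcomm, hε2]
      _ = (ε * ε) * (ρ (τ a) * ρ a * b) := by ring
      _ = _ := by rw [hεε, map_mul]; ring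

theorem RR_all (hu : u ≠ 0) (hcomm : ∀ σ ρ : H ≃ₐ[K] H, ∀ x, σ (ρ x) = ρ (σ x))
    {c σ₀ : H ≃ₐ[K] H}
    (hgen : ∀ σ : H ≃ₐ[K] H, ∃ (ρ : H ≃ₐ[K] H) (i j : ℕ), σ = ρ ^ 2 * c ^ i * σ₀ ^ j)
    (hc : c u = u⁻¹) (hexc : ∀ σ : H ≃ₐ[K] H, ∃ a : H, a ^ 2 * u = σ u ∧ c a = a⁻¹)
    (σ ρ : H ≃ₐ[K] H) : RR u σ ρ := by
  have hex : ∀ σ : H ≃ₐ[K] H, ∃ a : H, a ^ 2 * u = σ u := fun σ => by
    obtain ⟨a, ha, _⟩ := hexc σ
    exact ⟨a, ha⟩
  have key : ∀ ρ : H ≃ₐ[K] H, RR u σ₀ ρ → ∀ σ : H ≃ₐ[K] H, RR u σ ρ := by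
    intro ρ h0 σ
    obtain ⟨κ, i, j, rfl⟩ := hgen σ
    exact RR_mul hu hcomm hex (RR_mul hu hcomm hex (RR_sq hu hcomm hex κ ρ)
      (RR_pow hu hcomm hex (RR_conj hu hc hexc ρ) i)) (RR_pow hu hcomm hex h0 j)
  exact key ρ ((key σ₀ (RR_self hu hex σ₀) ρ).symm) σ

end rel

theorem s_ABL : S_ABL := by
  intro K H _ _ _ _ _ _ c σ₀ hgen u hu hc hexc M _ _ _ _ α hα htop
  have hcomm : ∀ σ ρ : H ≃ₐ[K] H, ∀ x, σ (ρ x) = ρ (σ x) := by
    intro σ ρ x
    have h : σ * ρ = ρ * σ := IsMulCommutative.is_comm.comm σ ρ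
    rw [← AlgEquiv.mul_apply, h, AlgEquiv.mul_apply]
  -- `M / K` is algebraic
  have hαi : IsIntegral H α := by
    refine ⟨Polynomial.X ^ 2 - Polynomial.C u, Polynomial.monic_X_pow_sub_C u two_ne_zero, ?_⟩
    rw [Polynomial.eval₂_sub, Polynomial.eval₂_pow, Polynomial.eval₂_X, Polynomial.eval₂_C, hα,
      sub_self]
  have halg1 : Algebra.IsAlgebraic H M := by
    have h1 : Algebra.IsAlgebraic H (IntermediateField.adjoin H {α}) :=
      IntermediateField.isAlgebraic_adjoin (by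
        intro x hx
        rw [Set.mem_singleton_iff.1 hx]
        exact hαi)
    rw [htop] at h1
    exact IntermediateField.topEquiv.isAlgebraic
  have halg : Algebra.IsAlgebraic K M := Algebra.IsAlgebraic.trans K H M
  -- membership in the whole of `M`
  have hgenM : ∀ T : Subfield M, (∀ h : H, algebraMap H M h ∈ T) → α ∈ T → ∀ m : M, m ∈ T := by
    intro T hT hαT m
    have h1 : IntermediateField.adjoin H {α} ≤ T.toIntermediateField hT := by
      rw [IntermediateField.adjoin_le_iff]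
      intro x hx
      rw [Set.mem_singleton_iff.1 hx]
      exact hαT
    rw [htop] at h1
    exact h1 (IntermediateField.mem_top (x := m))
  have hnormal : Normal K M := by
    let L := AlgebraicClosure M
    have hLalg : Algebra.IsAlgebraic K L := Algebra.IsAlgebraic.trans K M L
    have : IsAlgClosure K L := ⟨inferInstance, hLalg⟩
    have : Normal K L := IsAlgClosure.normal K L
    let j : M →ₐ[K] L := IsScalarTower.toAlgHom K M L
    have hj : Normal K j.fieldRange := by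
      rw [IntermediateField.normal_iff_forall_map_le (F := K) (L := L)]
      intro σ
      -- the restriction of `σ` to `H`
      have : IsScalarTower K H L := IsScalarTower.of_algebraMap_eq (fun x => by
        rw [IsScalarTower.algebraMap_apply K M L, IsScalarTower.algebraMap_apply K H M,
          IsScalarTower.algebraMap_apply H M L])
      have hres : ∀ h : H, algebraMap H L (σ.restrictNormal H h) = σ (algebraMap H L h) :=
        fun h => AlgHom.restrictNormal_commutes σ H h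
      let ρ : H ≃ₐ[K] H := AlgEquiv.ofBijective (σ.restrictNormal H)
        (AlgHom.normal_bijective K H H (σ.restrictNormal H))
      have hρ : ∀ h : H, algebraMap H L (ρ h) = σ (algebraMap H L h) := hres
      have hsub : ∀ m : M, σ (algebraMap M L m) ∈ j.fieldRange := by
        intro m
        refine hgenM (j.fieldRange.toSubfield.comap
          ((σ : L →+* L).comp (algebraMap M L))) ?_ ?_ m
        · intro h
          refine ⟨algebraMap H M (ρ h), ?_⟩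
          change algebraMap M L (algebraMap H M (ρ h)) = σ (algebraMap M L (algebraMap H M h))
          rw [← IsScalarTower.algebraMap_apply H M L, ← IsScalarTower.algebraMap_apply H M L]
          exact hρ h
        · obtain ⟨a, ha, _⟩ := hexc ρ
          have h1 : σ (algebraMap M L α) ^ 2 = (algebraMap M L (algebraMap H M a * α)) ^ 2 := by
            rw [← map_pow, ← map_pow, hα, ← IsScalarTower.algebraMap_apply H M L, ← hρ, ← ha,
              ← map_pow, mul_pow, hα, ← map_pow, ← map_mul,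
              ← IsScalarTower.algebraMap_apply H M L]
          rcases sq_eq_sq_iff_eq_or_eq_neg.1 h1 with h | h
          · exact ⟨algebraMap H M a * α, h.symm⟩
          · refine ⟨-(algebraMap H M a * α), ?_⟩
            change algebraMap M L (-(algebraMap H M a * α)) = σ (algebraMap M L α)
            rw [map_neg, h]
      rintro _ ⟨_, ⟨m, rfl⟩, rfl⟩
      exact hsub m
    exact Normal.of_algEquiv (F := K) (E := j.fieldRange) (E' := M) (h := hj)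
      (AlgEquiv.ofInjectiveField j).symm
  have := hnormal
  have : Algebra.IsSeparable K M := Algebra.IsAlgebraic.isSeparable_of_perfectField
  have hgal : IsGalois K M := ⟨⟩
  -- commutativity
  have hval : ∀ τ : M ≃ₐ[K] M, ∃ (σ : H ≃ₐ[K] H) (a : H), a ^ 2 * u = σ u ∧
      (∀ h : H, τ (algebraMap H M h) = algebraMap H M (σ h)) ∧ τ α = algebraMap H M a * α := by
    intro τ
    set σ : H ≃ₐ[K] H := τ.restrictNormal H with hσ
    have hres : ∀ h : H, τ (algebraMap H M h) = algebraMap H M (σ h) :=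
      fun h => (AlgEquiv.restrictNormal_commutes τ H h).symm
    obtain ⟨a, ha, _⟩ := hexc σ
    have h1 : τ α ^ 2 = (algebraMap H M a * α) ^ 2 := by
      rw [← map_pow, hα, hres, ← ha, mul_pow, hα, map_mul, map_pow]
    rcases sq_eq_sq_iff_eq_or_eq_neg.1 h1 with h | h
    · exact ⟨σ, a, ha, hres, h⟩
    · refine ⟨σ, -a, ?_, hres, ?_⟩
      · rw [neg_sq]; exact ha
      · rw [h, map_neg, neg_mul]
  have hc2 : ∀ τ₁ τ₂ : M ≃ₐ[K] M, τ₁ * τ₂ = τ₂ * τ₁ := by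
    intro τ₁ τ₂
    obtain ⟨σ, a, ha, hσ, hτa⟩ := hval τ₁
    obtain ⟨ρ, b, hb, hρ, hτb⟩ := hval τ₂
    have hR := RR_all hu hcomm hgen hc hexc σ ρ a b ha hb
    have hall : ∀ m : M, m ∈ (((τ₁ * τ₂ : M ≃ₐ[K] M) : M →+* M).eqLocusField
        ((τ₂ * τ₁ : M ≃ₐ[K] M) : M →+* M)) := by
      refine hgenM _ ?_ ?_
      · intro h
        change τ₁ (τ₂ (algebraMap H M h)) = τ₂ (τ₁ (algebraMap H M h))
        rw [hρ, hσ, hσ, hρ, hcomm]
      · change τ₁ (τ₂ α) = τ₂ (τ₁ α)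
        rw [hτb, hτa, map_mul, map_mul, hσ, hρ, hτa, hτb, ← mul_assoc, ← mul_assoc, ← map_mul,
          ← map_mul, hR]
    ext m
    exact hall m
  exact { toIsGalois := hgal, toIsMulCommutative := ⟨⟨hc2⟩⟩ }

end Pool.Agent.L7h60.SQ
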