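import Pool.Agent.Y698.Lf

/-!
# Project SQ (helper15): the local factors of isomorphic curves over isomorphic local fields
-/

set_option autoImplicit false
set_option linter.unusedSectionVars false

namespace Pool.Agent.L7h60.SQ

open WeierstrassCurve Pool.Agent.W189.NF
open Pool.Agent.Y698 (v_quad v_root_r v_unit AP AP_equiv card_point)

section vc

variable (R : Type) [CommRing R] [IsDomain R] [IsDiscreteValuationRing R] {L : Type}
  [Field L] [Algebra R L] [IsFractionRing R L]

open IsDiscreteValuationRing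

/-- integrality of the change of variables -/
theorem vc_gen {W₁ W₂ : WeierstrassCurve R} (h0 : W₁.Δ ≠ 0) (h12 : W₁.Δ ∣ W₂.Δ)
    (h21 : W₂.Δ ∣ W₁.Δ) {C : VariableChange L} (h : W₂.map (algebraMap R L) = C • W₁.map (algebraMap R L)) :
    ∃ C₀ : VariableChange R, W₂ = C₀ • W₁ := by
  set v := (maximalIdeal R).valuation L with hv
  have hR : ∀ a : R, v (algebraMap R L a) ≤ 1 := fun a =>
    IsDedekindDomain.HeightOneSpectrum.valuation_le_one _ a
  set u : L := ((C.u⁻¹ : Lˣ) : L) with hu
  have hu0 : u ≠ 0 := (C.u⁻¹).ne_zero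
  have huinv : (C.u : L) = u⁻¹ := by rw [hu, Units.val_inv_eq_inv_val, inv_inv]
  have hΔ := congrArg WeierstrassCurve.Δ h
  rw [variableChange_Δ, map_Δ, map_Δ, ← hu] at hΔ
  have hvu : v u = 1 := by
    have h3 := congrArg v hΔ
    obtain ⟨q, hq⟩ := h12
    obtain ⟨q', hq'⟩ := h21
    have hinj' : Function.Injective (algebraMap R L) := IsFractionRing.injective R L
    have h4 : v (algebraMap R L W₁.Δ) ≠ 0 := by
      rw [Valuation.ne_zero_iff, Ne, map_eq_zero_iff _ hinj']
      exact h0
    have h5 : v (algebraMap R L W₂.Δ) ≤ v (algebraMap R L W₁.Δ) := by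
      rw [hq, map_mul, map_mul]
      exact mul_le_of_le_one_right' (hR q)
    have h6 : v (algebraMap R L W₁.Δ) ≤ v (algebraMap R L W₂.Δ) := by
      conv_lhs => rw [hq', map_mul, map_mul]
      exact mul_le_of_le_one_right' (hR q')
    rw [map_mul, map_pow, le_antisymm h5 h6] at h3
    have h7 : v u ^ 12 = 1 := by
      have h8 : 1 * v (algebraMap R L W₁.Δ) = v u ^ 12 * v (algebraMap R L W₁.Δ) := by
        rw [one_mul]
        exact h3
      exact (mul_right_cancel₀ h4 h8).symm
    exact (pow_eq_one_iff_of_nonneg zero_le (by norm_num)).1 h7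
  have hvu' : v u⁻¹ = 1 := by rw [map_inv₀, hvu, inv_one]
  obtain ⟨u0, hu0'⟩ := exists_lift_of_le_one (A := R) (K := L) hvu.le
  obtain ⟨u1, hu1'⟩ := exists_lift_of_le_one (A := R) (K := L) hvu'.le
  have hinj : Function.Injective (algebraMap R L) := IsFractionRing.injective R L
  have hu01 : u1 * u0 = 1 := by
    apply hinj
    rw [map_mul, hu0', hu1', inv_mul_cancel₀ hu0, map_one]
  -- the coordinate `r`
  have hb6 := congrArg WeierstrassCurve.b₆ h
  rw [variableChange_b₆, map_b₆, map_b₆, map_b₄, map_b₂, ← hu] at hb6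
  have hb8 := congrArg WeierstrassCurve.b₈ h
  rw [variableChange_b₈, map_b₈, map_b₈, map_b₆, map_b₄, map_b₂, ← hu] at hb8
  have hr : v C.r ≤ 1 := by
    by_contra hcon
    push Not at hcon
    have hp : ∀ m n : ℕ, m ≤ n → v (C.r) ^ m ≤ v C.r ^ n := fun m n hmn =>
      pow_le_pow_right₀ hcon.le hmn
    have hv1 : ∀ n : ℕ, 1 ≤ v C.r ^ n := fun n => one_le_pow_of_one_le' hcon.le n
    have hterm : ∀ (a : L) (m n : ℕ), v a ≤ 1 → m ≤ n → v (a * C.r ^ m) ≤ v C.r ^ n := by
      intro a m n ha hmn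
      rw [map_mul, map_pow]
      exact (mul_le_of_le_one_left' ha).trans (hp m n hmn)
    have hvn : ∀ n : ℕ, v (n : L) ≤ 1 := by
      intro n
      have := hR n
      rwa [map_natCast] at this
    have h4 : v (4 * C.r) ≤ 1 := by
      refine v_root_r v (n := 2) hcon (y := u⁻¹ ^ 6 * algebraMap R L W₂.b₆ * C.r ^ 0 -
        algebraMap R L W₁.b₆ * C.r ^ 0 - (2 : ℕ) * algebraMap R L W₁.b₄ * C.r ^ 1 -
        algebraMap R L W₁.b₂ * C.r ^ 2) ?_ ?_
      · rw [hb6]
        push_cast
        field_simp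
        ring
      · refine (v.map_sub _ _).trans (max_le ((v.map_sub _ _).trans (max_le
          ((v.map_sub _ _).trans (max_le ?_ ?_)) ?_)) ?_)
        · refine hterm _ 0 2 ?_ (by norm_num)
          rw [map_mul, map_pow, hvu', one_pow, one_mul]
          exact hR _
        · exact hterm _ 0 2 (hR _) (by norm_num)
        · refine hterm _ 1 2 ?_ (by norm_num)
          rw [map_mul]
          exact mul_le_one' (hvn 2) (hR _)
        · exact hterm _ 2 2 (hR _) (by norm_num)
    have h3 : v (3 * C.r) ≤ 1 := by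
      refine v_root_r v (n := 3) hcon (y := u⁻¹ ^ 8 * algebraMap R L W₂.b₈ * C.r ^ 0 -
        algebraMap R L W₁.b₈ * C.r ^ 0 - (3 : ℕ) * algebraMap R L W₁.b₆ * C.r ^ 1 -
        (3 : ℕ) * algebraMap R L W₁.b₄ * C.r ^ 2 - algebraMap R L W₁.b₂ * C.r ^ 3) ?_ ?_
      · rw [hb8]
        push_cast
        field_simp
        ring
      · refine (v.map_sub _ _).trans (max_le ((v.map_sub _ _).trans (max_le
          ((v.map_sub _ _).trans (max_le ((v.map_sub _ _).trans (max_le ?_ ?_)) ?_)) ?_)) ?_)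
        · refine hterm _ 0 3 ?_ (by norm_num)
          rw [map_mul, map_pow, hvu', one_pow, one_mul]
          exact hR _
        · exact hterm _ 0 3 (hR _) (by norm_num)
        · refine hterm _ 1 3 ?_ (by norm_num)
          rw [map_mul]
          exact mul_le_one' (hvn 3) (hR _)
        · refine hterm _ 2 3 ?_ (by norm_num)
          rw [map_mul]
          exact mul_le_one' (hvn 3) (hR _)
        · exact hterm _ 3 3 (hR _) (by norm_num)
    have h5 : v (4 * C.r - 3 * C.r) ≤ 1 := (v.map_sub _ _).trans (max_le h4 h3)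
    have e : 4 * C.r - 3 * C.r = C.r := by ring
    rw [e] at h5
    exact absurd h5 (not_le.2 hcon)
  obtain ⟨r0, hr0⟩ := exists_lift_of_le_one (A := R) (K := L) hr
  -- the coordinate `s`
  have ha2 := congrArg WeierstrassCurve.a₂ h
  rw [variableChange_a₂, map_a₂, map_a₂, map_a₁, ← hu] at ha2
  have hs : v C.s ≤ 1 := by
    refine v_quad (L := L) v (b := algebraMap R L W₁.a₁)
      (c := algebraMap R L (W₁.a₂ + 3 * r0 - u1 ^ 2 * W₂.a₂)) (hR _) (hR _) ?_
    rw [map_sub, map_add, map_mul, map_mul, map_pow, hr0, hu1', ha2]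
    have e3 : algebraMap R L 3 = 3 := map_ofNat (algebraMap R L) 3
    rw [e3]
    field_simp
    ring
  obtain ⟨s0, hs0⟩ := exists_lift_of_le_one (A := R) (K := L) hs
  -- the coordinate `t`
  have ha6 := congrArg WeierstrassCurve.a₆ h
  rw [variableChange_a₆, map_a₆, map_a₆, map_a₄, map_a₃, map_a₂, map_a₁, ← hu] at ha6
  have ht : v C.t ≤ 1 := by
    refine v_quad (L := L) v (b := algebraMap R L (W₁.a₃ + r0 * W₁.a₁))
      (c := algebraMap R L (W₁.a₆ + r0 * W₁.a₄ + r0 ^ 2 * W₁.a₂ + r0 ^ 3 - u1 ^ 6 * W₂.a₆))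
      (hR _) (hR _) ?_
    simp only [map_sub, map_add, map_mul, map_pow]
    rw [hr0, hu1', ha6]
    field_simp
    ring
  obtain ⟨t0, ht0⟩ := exists_lift_of_le_one (A := R) (K := L) ht
  refine ⟨⟨⟨u1, u0, hu01, by rw [mul_comm, hu01]⟩, r0, s0, t0⟩, ?_⟩
  have hC : (⟨⟨u1, u0, hu01, by rw [mul_comm, hu01]⟩, r0, s0, t0⟩ : VariableChange R).map
      (algebraMap R L) = C := by
    ext
    · show algebraMap R L u1 = (C.u : L)
      rw [hu1', huinv]
    · exact hr0
    · exact hs0
    · exact ht0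
  have hmap : W₂.map (algebraMap R L) = ((⟨⟨u1, u0, hu01, by rw [mul_comm, hu01]⟩, r0, s0, t0⟩ :
      VariableChange R) • W₁).map (algebraMap R L) := by
    rw [← WeierstrassCurve.map_variableChange, hC, h]
  exact WeierstrassCurve.map_injective hinj hmap


/-- the discriminant of the minimal model divides that of every integral model -/
theorem min_dvd {W : WeierstrassCurve L} {W₃ : WeierstrassCurve R} {D : VariableChange L}
    (h : W₃.map (algebraMap R L) = D • W) : ((W.minimal R).integralModel R).Δ ∣ W₃.Δ := by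
  set v := (maximalIdeal R).valuation L with hv
  obtain ⟨C, hC⟩ : ∃ C : VariableChange L, W.minimal R = C • W := ⟨_, rfl⟩
  have hmin : IsMinimal R (W.minimal R) := inferInstance
  obtain ⟨h1, h2⟩ := hmin.val_Δ_maximal
  have hint : IsIntegral R (D • W) := ⟨⟨W₃, h.symm⟩⟩
  have e1 : (D * C⁻¹) • W.minimal R = D • W := by rw [hC, mul_smul, inv_smul_smul]
  have h3 := h2 (j := D * C⁻¹) (by simp only [e1]; exact hint)
  simp only [e1, one_smul] at h3
  have h4 : valuation_Δ_aux R (D • W) ≤ valuation_Δ_aux R (W.minimal R) := by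
    rcases le_total (valuation_Δ_aux R (W.minimal R)) (valuation_Δ_aux R (D • W)) with h5 | h5
    · exact h3 h5
    · exact h5
  rw [← Subtype.coe_le_coe, valuation_Δ_aux_eq_of_isIntegral, valuation_Δ_aux_eq_of_isIntegral,
    ← h, map_Δ, ← integralModel_Δ_eq R (W.minimal R)] at h4
  have hinj : Function.Injective (algebraMap R L) := IsFractionRing.injective R L
  by_cases hb : ((W.minimal R).integralModel R).Δ = 0
  · rw [hb, map_zero, map_zero, le_zero_iff, Valuation.zero_iff, map_eq_zero_iff _ hinj] at h4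
    rw [h4]
    exact dvd_zero _
  · have hb' : algebraMap R L ((W.minimal R).integralModel R).Δ ≠ 0 := by
      rw [Ne, map_eq_zero_iff _ hinj]
      exact hb
    have h5 : v (algebraMap R L W₃.Δ / algebraMap R L ((W.minimal R).integralModel R).Δ) ≤ 1 := by
      rw [map_div₀]
      exact (div_le_one₀ (zero_lt_iff.2 ((Valuation.ne_zero_iff _).2 hb'))).2 h4
    obtain ⟨c, hc⟩ := exists_lift_of_le_one (A := R) (K := L) h5
    refine ⟨c, hinj ?_⟩
    rw [map_mul, hc]
    field_simp

end vc

section red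

/-- `T` is the slope of a tangent at the node -/
def Tan {k : Type*} [Field k] (V : WeierstrassCurve k) (T : k) : Prop :=
  V.c₄ * T ^ 2 + V.a₁ * V.c₄ * T - (54 * V.b₆ - 3 * V.b₂ * V.b₄ + V.a₂ * V.c₄) = 0

open Classical in
/-- the linear coefficient, from the reduction -/
noncomputable def aK {k : Type} [Field k] (V : WeierstrassCurve k) : ℤ :=
  if V.Δ ≠ 0 then (Nat.card k : ℤ) - Nat.card (AP V)
  else if V.c₄ ≠ 0 then (if ∃ T, Tan V T then 1 else -1) else 0

open Classical in
/-- the quadratic coefficient, from the reduction -/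
noncomputable def eK {k : Type} [Field k] (V : WeierstrassCurve k) : ℤ :=
  if V.Δ ≠ 0 then (Nat.card k : ℤ) else 0

open Polynomial in
lemma splits_iff {k : Type*} [Field k] (V : WeierstrassCurve k) (h : V.c₄ ≠ 0) :
    Splits (C V.c₄ * X ^ 2 + C (V.a₁ * V.c₄) * X -
      C (54 * V.b₆ - 3 * V.b₂ * V.b₄ + V.a₂ * V.c₄)) ↔ ∃ T, Tan V T := by
  have e1 : C V.c₄ * X ^ 2 + C (V.a₁ * V.c₄) * X -
      C (54 * V.b₆ - 3 * V.b₂ * V.b₄ + V.a₂ * V.c₄) = C V.c₄ * X ^ 2 + C (V.a₁ * V.c₄) * X +
      C (-(54 * V.b₆ - 3 * V.b₂ * V.b₄ + V.a₂ * V.c₄)) := by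
    rw [map_neg, sub_eq_add_neg]
  have hdeg : (C V.c₄ * X ^ 2 + C (V.a₁ * V.c₄) * X -
      C (54 * V.b₆ - 3 * V.b₂ * V.b₄ + V.a₂ * V.c₄)).natDegree = 2 := by
    rw [e1]
    exact natDegree_quadratic h
  have hev : ∀ T, (C V.c₄ * X ^ 2 + C (V.a₁ * V.c₄) * X -
      C (54 * V.b₆ - 3 * V.b₂ * V.b₄ + V.a₂ * V.c₄)).eval T = V.c₄ * T ^ 2 + V.a₁ * V.c₄ * T -
        (54 * V.b₆ - 3 * V.b₂ * V.b₄ + V.a₂ * V.c₄) := by
    intro T
    simp
  constructor
  · intro hs
    obtain ⟨T, hT⟩ := hs.exists_eval_eq_zero (by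
      rw [degree_eq_natDegree (by
        intro h0
        rw [h0, natDegree_zero] at hdeg
        omega), hdeg]
      norm_num)
    exact ⟨T, by rw [hev] at hT; exact hT⟩
  · rintro ⟨T, hT⟩
    refine Splits.of_natDegree_eq_two hdeg (x := T) ?_
    rw [hev]
    exact hT

open Classical in
/-- invariance under changes of variables -/
theorem aK_smul {k : Type} [Field k] [Finite k] (V : WeierstrassCurve k) (C : VariableChange k) :
    aK (C • V) = aK V ∧ eK (C • V) = eK V := by
  have hu : (C.u : k) ≠ 0 := C.u.ne_zero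
  have hu' : ((C.u⁻¹ : kˣ) : k) ≠ 0 := (C.u⁻¹).ne_zero
  have hui : ((C.u⁻¹ : kˣ) : k) = (C.u : k)⁻¹ := Units.val_inv_eq_inv_val _
  have h1 : (C • V).Δ ≠ 0 ↔ V.Δ ≠ 0 := by
    rw [variableChange_Δ]
    constructor
    · intro h h0
      exact h (by rw [h0, mul_zero])
    · intro h
      exact mul_ne_zero (pow_ne_zero _ hu') h
  have h2 : (C • V).c₄ ≠ 0 ↔ V.c₄ ≠ 0 := by
    rw [variableChange_c₄]
    constructor
    · intro h h0
      exact h (by rw [h0, mul_zero])
    · intro h
      exact mul_ne_zero (pow_ne_zero _ hu') h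
  have h3 : ∀ T, Tan V ((C.u : k) * T + C.s) ↔ Tan (C • V) T := by
    intro T
    unfold Tan
    have e : V.c₄ * ((C.u : k) * T + C.s) ^ 2 + V.a₁ * V.c₄ * ((C.u : k) * T + C.s) -
        (54 * V.b₆ - 3 * V.b₂ * V.b₄ + V.a₂ * V.c₄) = (C.u : k) ^ 6 *
        ((C • V).c₄ * T ^ 2 + (C • V).a₁ * (C • V).c₄ * T -
          (54 * (C • V).b₆ - 3 * (C • V).b₂ * (C • V).b₄ + (C • V).a₂ * (C • V).c₄)) := by
      rw [variableChange_c₄, variableChange_a₁, variableChange_b₆, variableChange_b₂,
        variableChange_b₄, variableChange_a₂, hui]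
      unfold WeierstrassCurve.c₄
      field_simp
      ring
    rw [e]
    constructor
    · intro h
      exact (mul_eq_zero.1 h).resolve_left (pow_ne_zero _ hu)
    · intro h
      rw [h, mul_zero]
  have h4 : (∃ T, Tan (C • V) T) ↔ ∃ T, Tan V T := by
    constructor
    · rintro ⟨T, hT⟩
      exact ⟨_, (h3 T).2 hT⟩
    · rintro ⟨T, hT⟩
      refine ⟨(T - C.s) / (C.u : k), (h3 _).1 ?_⟩
      have e : (C.u : k) * ((T - C.s) / (C.u : k)) + C.s = T := by
        field_simp
        ring
      rw [e]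
      exact hT
  constructor
  · unfold aK
    exact if_congr h1 (by rw [Nat.card_congr (AP_equiv V C)]) (if_congr h2 (if_congr h4 rfl rfl) rfl)
  · unfold eK
    exact if_congr h1 rfl rfl

open Classical in
/-- invariance under isomorphisms -/
theorem aK_map {k k' : Type} [Field k] [Field k'] (V : WeierstrassCurve k) (e : k ≃+* k') :
    aK (V.map (e : k →+* k')) = aK V ∧ eK (V.map (e : k →+* k')) = eK V := by
  have h1 : (V.map (e : k →+* k')).Δ ≠ 0 ↔ V.Δ ≠ 0 := by
    rw [map_Δ]
    exact map_ne_zero _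
  have h2 : (V.map (e : k →+* k')).c₄ ≠ 0 ↔ V.c₄ ≠ 0 := by
    rw [map_c₄]
    exact map_ne_zero _
  have h3 : ∀ T, Tan (V.map (e : k →+* k')) (e T) ↔ Tan V T := by
    intro T
    unfold Tan
    have e54 : e 54 = 54 := map_ofNat e 54
    have e3 : e 3 = 3 := map_ofNat e 3
    rw [← map_eq_zero (e : k →+* k')]
    simp [map_c₄, map_b₆, map_b₂, map_b₄, map_a₁, map_a₂, e54, e3]
  have h4 : (∃ T, Tan (V.map (e : k →+* k')) T) ↔ ∃ T, Tan V T := by
    constructor
    · rintro ⟨T, hT⟩
      refine ⟨e.symm T, (h3 _).1 ?_⟩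
      rw [e.apply_symm_apply]
      exact hT
    · rintro ⟨T, hT⟩
      exact ⟨_, (h3 T).2 hT⟩
  have h5 : Nat.card (AP (V.map (e : k →+* k'))) = Nat.card (AP V) := by
    refine (Nat.card_congr (Equiv.subtypeEquiv (Equiv.prodCongr e.toEquiv e.toEquiv)
      fun x => ?_)).symm
    rw [WeierstrassCurve.Affine.equation_iff, WeierstrassCurve.Affine.equation_iff]
    simp only [Equiv.prodCongr_apply, Prod.map_fst, Prod.map_snd, RingEquiv.toEquiv_eq_coe,
      EquivLike.coe_coe, map_a₁, map_a₂, map_a₃, map_a₄, map_a₆, RingHom.coe_coe]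
    rw [← map_pow, ← map_pow, ← map_pow, ← map_mul, ← map_mul, ← map_mul, ← map_mul, ← map_mul,
      ← map_add, ← map_add, ← map_add, ← map_add, ← map_add, e.injective.eq_iff]
  have h6 : Nat.card k' = Nat.card k := (Nat.card_congr e.toEquiv).symm
  constructor
  · unfold aK
    exact if_congr h1 (by rw [h5, h6]) (if_congr h2 (if_congr h4 rfl rfl) rfl)
  · unfold eK
    exact if_congr h1 (by rw [h6]) rfl

variable (R : Type) [CommRing R] [IsDomain R] [IsDiscreteValuationRing R] {L : Type}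
  [Field L] [Algebra R L] [IsFractionRing R L]

open IsDiscreteValuationRing

lemma good_iff (M : WeierstrassCurve L) [IsMinimal R M] :
    M.HasGoodReduction R ↔ (M.reduction R).Δ ≠ 0 := by
  rw [hasGoodReduction_iff_isElliptic_reduction, WeierstrassCurve.isElliptic_iff,
    isUnit_iff_ne_zero]

lemma c4_iff (M : WeierstrassCurve L) [IsMinimal R M] :
    (maximalIdeal R).valuation L M.c₄ = 1 ↔ (M.reduction R).c₄ ≠ 0 := by
  rw [← integralModel_c₄_eq R M, IsDedekindDomain.HeightOneSpectrum.valuation_eq_one_iff_notMem]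
  unfold WeierstrassCurve.reduction
  rw [map_c₄, Ne, IsLocalRing.residue_eq_zero_iff]
  rfl

lemma bad_iff (M : WeierstrassCurve L) [IsMinimal R M] :
    (maximalIdeal R).valuation L M.Δ < 1 ↔ ¬ (M.reduction R).Δ ≠ 0 := by
  rw [← good_iff, hasGoodReduction_iff]
  have h1 : (maximalIdeal R).valuation L M.Δ ≤ 1 := by
    rw [← integralModel_Δ_eq R M]
    exact IsDedekindDomain.HeightOneSpectrum.valuation_le_one _ _
  constructor
  · intro h h2
    exact h.ne h2.2
  · intro h
    exact lt_of_le_of_ne h1 fun h2 => h ⟨inferInstance, h2⟩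

lemma mult_iff (M : WeierstrassCurve L) [IsMinimal R M] : M.HasMultiplicativeReduction R ↔
    ¬ (M.reduction R).Δ ≠ 0 ∧ (M.reduction R).c₄ ≠ 0 := by
  constructor
  · intro h
    exact ⟨(bad_iff R M).1 h.badReduction, (c4_iff R M).1 h.multiplicativeReduction⟩
  · rintro ⟨h1, h2⟩
    exact ⟨(bad_iff R M).2 h1, (c4_iff R M).2 h2⟩

lemma split_iff (M : WeierstrassCurve L) [IsMinimal R M] : M.HasSplitMultiplicativeReduction R ↔
    (¬ (M.reduction R).Δ ≠ 0 ∧ (M.reduction R).c₄ ≠ 0) ∧ ∃ T, Tan (M.reduction R) T := by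
  have e54 : IsLocalRing.residue R 54 = 54 := map_ofNat _ 54
  have e3 : IsLocalRing.residue R 3 = 3 := map_ofNat _ 3
  constructor
  · intro h
    have h1 := (mult_iff R M).1 h.toHasMultiplicativeReduction
    refine ⟨h1, (splits_iff _ h1.2).1 ?_⟩
    refine (congrArg Polynomial.Splits ?_).mp h.splitMultiplicativeReduction
    unfold WeierstrassCurve.reduction
    simp [map_c₄, map_b₆, map_b₂, map_b₄, map_a₁, map_a₂, e54, e3]
  · rintro ⟨h1, h2⟩
    have h3 := (mult_iff R M).2 h1
    refine { toHasMultiplicativeReduction := h3, splitMultiplicativeReduction := ?_ }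
    refine (congrArg Polynomial.Splits ?_).mp ((splits_iff _ h1.2).2 h2)
    unfold WeierstrassCurve.reduction
    simp [map_c₄, map_b₆, map_b₂, map_b₄, map_a₁, map_a₂, e54, e3]

/-- the local factor from the reduction -/
theorem loc_eq (W : WeierstrassCurve L) [Finite (IsLocalRing.ResidueField R)] :
    aLoc R W = aK ((W.minimal R).reduction R) ∧ eLoc R W = eK ((W.minimal R).reduction R) := by
  classical
  have hg := good_iff R (W.minimal R)
  have hm := mult_iff R (W.minimal R)
  have hs := split_iff R (W.minimal R)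
  constructor
  · unfold aLoc aK
    by_cases h1 : ((W.minimal R).reduction R).Δ ≠ 0
    · rw [if_pos (hg.2 h1), if_pos h1, card_point _ h1]
      push_cast
      ring
    · rw [if_neg (fun h => h1 (hg.1 h)), if_neg h1]
      by_cases h2 : ((W.minimal R).reduction R).c₄ ≠ 0
      · rw [if_pos h2]
        by_cases h3 : ∃ T, Tan ((W.minimal R).reduction R) T
        · rw [if_pos (hs.2 ⟨⟨h1, h2⟩, h3⟩), if_pos h3]
        · rw [if_neg (fun h => h3 (hs.1 h).2), if_pos (hm.2 ⟨h1, h2⟩), if_neg h3]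
      · rw [if_neg (fun h => h2 (hs.1 h).1.2), if_neg (fun h => h2 (hm.1 h).2), if_neg h2]
  · unfold eLoc eK
    by_cases h1 : ((W.minimal R).reduction R).Δ ≠ 0
    · rw [if_pos (hg.2 h1), if_pos h1]
    · rw [if_neg (fun h => h1 (hg.1 h)), if_neg h1]

/-- **isomorphic curves over isomorphic local fields have the same local factors** -/
theorem loc_iso {R' : Type} [CommRing R'] [IsDomain R'] [IsDiscreteValuationRing R'] {L' : Type}
    [Field L'] [Algebra R' L'] [IsFractionRing R' L'] (e : L ≃+* L') (eR : R ≃+* R')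
    (he : ∀ x, e (algebraMap R L x) = algebraMap R' L' (eR x)) (W : WeierstrassCurve L)
    (hΔ : W.Δ ≠ 0) [Finite (IsLocalRing.ResidueField R)] :
    aLoc R' (W.map (e : L →+* L')) = aLoc R W ∧ eLoc R' (W.map (e : L →+* L')) = eLoc R W := by
  set W' := W.map (e : L →+* L') with hW'
  have hW : W = W'.map (e.symm : L' →+* L) := by
    rw [hW', WeierstrassCurve.map_map]
    have : ((e.symm : L' →+* L).comp (e : L →+* L')) = RingHom.id L := by
      ext x
      simp
    rw [this, WeierstrassCurve.map_id]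
  have he' : ∀ y, e.symm (algebraMap R' L' y) = algebraMap R L (eR.symm y) := by
    intro y
    rw [RingEquiv.symm_apply_eq, he, eR.apply_symm_apply]
  have hcomp : (e : L →+* L').comp (algebraMap R L) = (algebraMap R' L').comp (eR : R →+* R') :=
    RingHom.ext he
  have hcomp' : (e.symm : L' →+* L).comp (algebraMap R' L') =
      (algebraMap R L).comp (eR.symm : R' →+* R) := RingHom.ext he'
  obtain ⟨C, hC⟩ : ∃ C : VariableChange L, W.minimal R = C • W := ⟨_, rfl⟩
  obtain ⟨C', hC'⟩ : ∃ C' : VariableChange L', W'.minimal R' = C' • W' := ⟨_, rfl⟩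
  set I := (W.minimal R).integralModel R with hI
  set I' := (W'.minimal R').integralModel R' with hI'
  have h1 : I.map (algebraMap R L) = C • W := by
    rw [← hC]
    exact baseChange_integralModel_eq R (W.minimal R)
  have h1' : I'.map (algebraMap R' L') = C' • W' := by
    rw [← hC']
    exact baseChange_integralModel_eq R' (W'.minimal R')
  have h2 : (I.map (eR : R →+* R')).map (algebraMap R' L') = (C.map (e : L →+* L')) • W' := by
    rw [WeierstrassCurve.map_map, ← hcomp, ← WeierstrassCurve.map_map, h1,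
      WeierstrassCurve.map_variableChange]
  have h2' : (I'.map (eR.symm : R' →+* R)).map (algebraMap R L) =
      (C'.map (e.symm : L' →+* L)) • W := by
    rw [WeierstrassCurve.map_map, ← hcomp', ← WeierstrassCurve.map_map, h1', hW,
      WeierstrassCurve.map_variableChange]
  have d1 : I'.Δ ∣ (I.map (eR : R →+* R')).Δ := min_dvd R' h2
  have d2 : (I.map (eR : R →+* R')).Δ ∣ I'.Δ := by
    have h3 := min_dvd R h2'
    rw [map_Δ] at h3 ⊢
    have h4 := map_dvd (eR : R →+* R') h3
    simpa using h4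
  have h0 : (I.map (eR : R →+* R')).Δ ≠ 0 := by
    intro h
    rw [map_Δ] at h
    have h3 : I.Δ = 0 := eR.injective (by rw [map_zero]; exact h)
    have h4 := congrArg WeierstrassCurve.Δ h1
    rw [map_Δ, h3, map_zero, variableChange_Δ] at h4
    rcases mul_eq_zero.1 h4.symm with h5 | h5
    · exact pow_ne_zero _ (C.u⁻¹).ne_zero h5
    · exact hΔ h5
  obtain ⟨C₀, hC₀⟩ := vc_gen R' (L := L') h0 d2 d1 (C := C' * (C.map (e : L →+* L'))⁻¹) (by
    rw [h2, mul_smul, inv_smul_smul, h1'])
  have hfin : Finite (IsLocalRing.ResidueField R') :=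
    Finite.of_equiv _ (IsLocalRing.ResidueField.mapEquiv eR).toEquiv
  have hred : (W'.minimal R').reduction R' = (C₀.map (IsLocalRing.residue R')) •
      (((W.minimal R).reduction R).map
        ((IsLocalRing.ResidueField.mapEquiv eR : _ ≃+* _) : _ →+* _)) := by
    unfold WeierstrassCurve.reduction
    rw [← hI', ← hI, hC₀, ← WeierstrassCurve.map_variableChange, WeierstrassCurve.map_map,
      WeierstrassCurve.map_map]
    congr 1
  obtain ⟨l1, l2⟩ := loc_eq R W
  obtain ⟨l3, l4⟩ := loc_eq R' W'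
  obtain ⟨l5, l6⟩ := aK_smul (((W.minimal R).reduction R).map
        ((IsLocalRing.ResidueField.mapEquiv eR : _ ≃+* _) : _ →+* _)) (C₀.map (IsLocalRing.residue R'))
  obtain ⟨l7, l8⟩ := aK_map ((W.minimal R).reduction R) (IsLocalRing.ResidueField.mapEquiv eR)
  rw [l1, l2, l3, l4, hred, l5, l6, l7, l8]
  exact ⟨rfl, rfl⟩

end red

end Pool.Agent.L7h60.SQ
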