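import Pool.Agent.L7h62.SQ.Stm3

/-! Project SQ (helper62, MP_1ef7cf_nt), third stage: part MOD. -/

set_option autoImplicit false

namespace Pool.Agent.L7h60.SQ

open Pool.Agent.L7h62.SQ

open Polynomial in
theorem poly (k : ℕ) : ∃ Q : ℤ[X], (X - 1) ^ (2 ^ k) = X ^ (2 ^ k) - 1 + 2 * ((X - 1) * Q) := by
  induction k with
  | zero => exact ⟨0, by simp⟩
  | succ k ih =>
    obtain ⟨Q, hQ⟩ := ih
    obtain ⟨R, hR⟩ : (X - 1 : ℤ[X]) ∣ X ^ (2 ^ k) - 1 := sub_one_dvd_pow_sub_one X (2 ^ k)
    refine ⟨-R + 2 * (X ^ (2 ^ k) - 1) * Q + 2 * ((X - 1) * Q ^ 2), ?_⟩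
    rw [pow_succ 2 k, pow_mul, pow_mul, hQ]
    have h2 : (X ^ 2 ^ k : ℤ[X]) = 1 + (X - 1) * R := by rw [← hR]; ring
    rw [h2]
    ring

theorem s_MOD : S_MOD := by
  intro X _ _ hX s k hs hcard u hdvd
  obtain ⟨Q, hQ⟩ := poly k
  set m := 2 ^ k with hm
  have hm1 : 1 ≤ m := Nat.one_le_two_pow
  let σ : Module.End ℤ X := s.toIntLinearMap
  let τ : Module.End ℤ X := σ - 1
  have hσ1 : ∀ x, σ x = s x := fun x => rfl
  have hσ : ∀ (i : ℕ) (x : X), (σ ^ i) x = s^[i] x := by
    intro i x
    rw [Module.End.pow_apply]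
    rfl
  have hτ : ∀ x, τ x = s x - x := fun x => rfl
  have hσm : σ ^ m = -1 := by
    ext x
    rw [hσ, hs]
    rfl
  let q : Module.End ℤ X := Polynomial.aeval σ Q
  have hkey : τ ^ m = -1 - 1 + (τ * q + τ * q) := by
    have h1 := congrArg (Polynomial.aeval σ) hQ
    simp only [map_pow, map_sub, Polynomial.aeval_X, map_one, map_add, map_mul, two_mul] at h1
    rw [hσm] at h1
    exact h1
  have hkey' : ∀ x, (τ ^ m) x = (τ (q x) - x) + (τ (q x) - x) := by
    intro x
    have h1 := congrArg (fun f : Module.End ℤ X => f x) hkey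
    simp only [LinearMap.add_apply, LinearMap.sub_apply, LinearMap.neg_apply,
      Module.End.mul_apply, Module.End.one_apply] at h1
    rw [h1]
    abel
  -- `2X` is contained in the images
  have hD : ∀ j, j ≤ m → ∀ x, ∃ y, x + x = (τ ^ j) y := by
    intro j
    induction j with
    | zero => intro _ x; exact ⟨x + x, by simp⟩
    | succ j ih =>
      intro hj x
      obtain ⟨y, hy⟩ := ih (by omega) (q x)
      refine ⟨y - (τ ^ (m - (j + 1))) x, ?_⟩
      have h1 := hkey' x
      have h2 : (τ ^ m) x = (τ ^ (j + 1)) ((τ ^ (m - (j + 1))) x) := by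
        rw [← Module.End.mul_apply, ← pow_add]
        congr 2
        omega
      have h3 : (τ ^ (j + 1)) y = τ (q x) + τ (q x) := by
        rw [pow_succ', Module.End.mul_apply, ← hy, map_add]
      rw [map_sub, h3, ← h2, h1]
      abel
  -- injectivity
  have hfix : ∀ x, τ x = 0 → x = 0 := by
    intro x hx
    have h1 : s x = x := sub_eq_zero.1 hx
    have h2 : ∀ i : ℕ, s^[i] x = x := fun i => Function.iterate_fixed h1 i
    have h3 := hs x
    rw [h2] at h3
    exact hX x (by nth_rewrite 1 [h3]; simp)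
  have hinj : Function.Injective τ := (injective_iff_map_eq_zero τ).2 hfix
  have hinjp : ∀ j : ℕ, Function.Injective (τ ^ j) := by
    intro j
    rw [show ((τ ^ j : Module.End ℤ X) : X → X) = τ^[j] from funext (Module.End.pow_apply τ j)]
    exact hinj.iterate j
  -- the images as subgroups
  let T : X →+ X := τ.toAddMonoidHom
  let f : ℕ → X →+ X := fun j => (τ ^ j).toAddMonoidHom
  have hf : ∀ j x, f j x = (τ ^ j) x := fun j x => rfl
  have hfs : ∀ j, f (j + 1) = T.comp (f j) := by
    intro j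
    ext x
    show (τ ^ (j + 1)) x = τ ((τ ^ j) x)
    rw [pow_succ', Module.End.mul_apply]
  have hidx : ∀ j, (f j).range.index = T.range.index ^ j := by
    intro j
    induction j with
    | zero =>
      rw [pow_zero, AddSubgroup.index_eq_one]
      rw [AddMonoidHom.range_eq_top]
      intro x
      exact ⟨x, by rw [hf]; simp⟩
    | succ j ih =>
      rw [hfs, ← AddMonoidHom.map_range, AddSubgroup.index_map_of_injective _ hinj, ih, pow_succ]
  have hrm : (f m).range = (AddMonoidHom.id X + AddMonoidHom.id X).range := by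
    ext x
    constructor
    · rintro ⟨y, rfl⟩
      exact ⟨τ (q y) - y, (hkey' y).symm⟩
    · rintro ⟨y, rfl⟩
      obtain ⟨z, hz⟩ := hD m le_rfl y
      exact ⟨z, hz.symm⟩
  have hN1 : T.range.index ^ m ≤ 2 ^ m := by
    rw [← hidx, hrm]
    exact hcard
  have hN2 : T.range.index ≤ 2 := by
    by_contra h
    push Not at h
    have := Nat.pow_lt_pow_left h (show m ≠ 0 by omega)
    omega
  have hfin : (AddMonoidHom.id X + AddMonoidHom.id X).range.index ≠ 0 := by
    have h1 : Module.Finite ℤ (X ⧸ (AddMonoidHom.id X + AddMonoidHom.id X).range) :=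
      Module.Finite.of_surjective
        (QuotientAddGroup.mk' (AddMonoidHom.id X + AddMonoidHom.id X).range).toIntLinearMap
        (QuotientAddGroup.mk'_surjective _)
    have h2 : Finite (X ⧸ (AddMonoidHom.id X + AddMonoidHom.id X).range) := by
      apply Module.finite_of_fg_torsion
      intro z
      refine ⟨⟨2, by simp⟩, ?_⟩
      obtain ⟨x, rfl⟩ := QuotientAddGroup.mk'_surjective _ z
      show (2 : ℤ) • (QuotientAddGroup.mk' (AddMonoidHom.id X + AddMonoidHom.id X).range) x = 0
      rw [← map_zsmul]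
      refine (QuotientAddGroup.eq_zero_iff _).2 ⟨x, ?_⟩
      show x + x = (2 : ℤ) • x
      rw [two_smul]
    have h3 : Nat.card (X ⧸ (AddMonoidHom.id X + AddMonoidHom.id X).range) ≠ 0 :=
      Nat.card_pos.ne'
    exact h3
  have hN0 : T.range.index ≠ 0 := by
    intro h
    apply hfin
    rw [← hrm, hidx, h, zero_pow (by omega)]
  -- the main case distinction
  by_cases hu : ∃ v, u = (τ ^ (m - 1)) v
  · obtain ⟨v, hv⟩ := hu
    refine ⟨τ (q v) - v, ?_⟩
    rw [← hkey' v, ← hτ u, hv, ← Module.End.mul_apply, ← pow_succ']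
    congr 2
    omega
  exfalso
  -- the largest `j`
  have hj : ∃ j, j < m - 1 ∧ (∃ v, u = (τ ^ j) v) ∧ ¬ ∃ v, u = (τ ^ (j + 1)) v := by
    by_contra hcon
    push Not at hcon
    have h1 : ∀ j, j ≤ m - 1 → ∃ v, u = (τ ^ j) v := by
      intro j
      induction j with
      | zero => intro _; exact ⟨u, by simp⟩
      | succ j ih =>
        intro hj
        obtain ⟨v, hv⟩ := ih (by omega)
        exact hcon j (by omega) ⟨v, hv⟩
    exact hu (h1 (m - 1) le_rfl)
  obtain ⟨j, hjm, ⟨v, hv⟩, hj2⟩ := hj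
  have hvT : v ∉ T.range := by
    rintro ⟨w, hw⟩
    apply hj2
    refine ⟨w, ?_⟩
    have hw' : τ w = v := hw
    rw [hv, ← hw', pow_succ, Module.End.mul_apply]
  have hN : T.range.index = 2 := by
    have h1 : T.range.index ≠ 1 := by
      intro h
      rw [AddSubgroup.index_eq_one] at h
      exact hvT (h ▸ AddSubgroup.mem_top v)
    omega
  set U := AddSubgroup.closure (Set.range fun i : ℕ => (s^[i]) u) with hU
  have huU : u ∈ U := AddSubgroup.subset_closure ⟨0, rfl⟩
  have hsU : ∀ x ∈ U, s x ∈ U := by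
    intro x hx
    induction hx using AddSubgroup.closure_induction with
    | mem x hx =>
      obtain ⟨i, rfl⟩ := hx
      refine AddSubgroup.subset_closure ⟨i + 1, ?_⟩
      exact Function.iterate_succ_apply' s i u
    | zero => rw [map_zero]; exact U.zero_mem
    | add x y _ _ hx hy => rw [map_add]; exact U.add_mem hx hy
    | neg x _ hx => rw [map_neg]; exact U.neg_mem hx
  have hτU : ∀ x ∈ U, τ x ∈ U := fun x hx => U.sub_mem (hsU x hx) hx
  have hτpU : ∀ (n : ℕ) (x), x ∈ U → (τ ^ n) x ∈ U := by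
    intro n
    induction n with
    | zero => intro x hx; simpa using hx
    | succ n ih =>
      intro x hx
      rw [pow_succ', Module.End.mul_apply]
      exact hτU _ (ih x hx)
  -- `U` is in the image of `τ ^ j`
  have hsτ : ∀ (n : ℕ) (x : X), s ((τ ^ n) x) = (τ ^ n) (s x) := by
    intro n x
    have h1 : Commute σ (τ ^ n) := by
      apply Commute.pow_right
      exact (Commute.refl σ).sub_right (Commute.one_right σ)
    have h2 := congrArg (fun g : Module.End ℤ X => g x) h1.eq
    exact h2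
  have hUr : U ≤ (f j).range := by
    rw [hU, AddSubgroup.closure_le]
    rintro x ⟨i, rfl⟩
    refine ⟨s^[i] v, ?_⟩
    show (τ ^ j) (s^[i] v) = s^[i] u
    rw [hv]
    induction i with
    | zero => rfl
    | succ i ih =>
      rw [Function.iterate_succ_apply', Function.iterate_succ_apply', ← hsτ, ih]
  -- approximation
  have happ1 : ∀ x, ∃ x', (τ ^ j) x - (τ ^ (j + 1)) x' ∈ U := by
    intro x
    by_cases hx : x ∈ T.range
    · obtain ⟨x', hx'⟩ := hx
      refine ⟨x', ?_⟩
      have hx'' : τ x' = x := hx'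
      rw [pow_succ, Module.End.mul_apply, hx'', sub_self]
      exact U.zero_mem
    · have h1 : x + -v ∈ T.range := by
        rw [AddSubgroup.add_mem_iff_of_index_two hN]
        refine ⟨fun h => absurd h hx, fun h => ?_⟩
        exact absurd (by simpa using T.range.neg_mem h) hvT
      obtain ⟨x', hx'⟩ := h1
      refine ⟨x', ?_⟩
      have hx'' : τ x' = x + -v := hx'
      rw [pow_succ, Module.End.mul_apply, hx'', map_add, map_neg, ← hv]
      simpa using huU
  have happ : ∀ (n : ℕ) (x), ∃ x', (τ ^ j) x - (τ ^ (j + n)) x' ∈ U := by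
    intro n
    induction n with
    | zero => intro x; exact ⟨x, by simp⟩
    | succ n ih =>
      intro x
      obtain ⟨x', hx'⟩ := ih x
      obtain ⟨x'', hx''⟩ := happ1 x'
      refine ⟨x'', ?_⟩
      have h1 := hτpU n _ hx''
      rw [map_sub, ← Module.End.mul_apply, ← Module.End.mul_apply, ← pow_add, ← pow_add] at h1
      have h2 := U.add_mem hx' h1
      have e1 : n + j = j + n := by omega
      have e2 : n + (j + 1) = j + (n + 1) := by omega
      rw [e1, e2] at h2
      simpa using h2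
  -- the quotient
  set U' := U.comap (f j) with hU'
  have hUU : U'.map (f j) = U := by
    rw [hU', AddSubgroup.map_comap_eq, inf_eq_right.2 hUr]
  have hdiv : ∀ x, ∃ y, x - (y + y) ∈ U' := by
    intro x
    obtain ⟨x', hx'⟩ := happ m x
    refine ⟨τ (q x') - x', ?_⟩
    rw [hU', AddSubgroup.mem_comap]
    rw [pow_add, Module.End.mul_apply, hkey' x', ← map_sub] at hx'
    exact hx'
  have hMf : Module.Finite ℤ (X ⧸ U') :=
    Module.Finite.of_surjective (QuotientAddGroup.mk' U').toIntLinearMap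
      (QuotientAddGroup.mk'_surjective _)
  have hM2 : ∀ z : X ⧸ U', ∃ w : X ⧸ U', z = (2 : ℤ) • w := by
    intro z
    obtain ⟨x, rfl⟩ := QuotientAddGroup.mk'_surjective _ z
    obtain ⟨y, hy⟩ := hdiv x
    refine ⟨QuotientAddGroup.mk' U' y, ?_⟩
    rw [← sub_eq_zero, ← map_zsmul, ← map_sub]
    refine (QuotientAddGroup.eq_zero_iff _).2 ?_
    rw [two_smul]
    exact hy
  obtain ⟨r, hr1, hr2⟩ := Submodule.exists_sub_one_mem_and_smul_eq_zero_of_fg_of_le_smul
    (Ideal.span {(2 : ℤ)}) (⊤ : Submodule ℤ (X ⧸ U')) hMf.1 (by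
      intro z _
      obtain ⟨w, rfl⟩ := hM2 z
      exact Submodule.smul_mem_smul (Ideal.mem_span_singleton_self 2) Submodule.mem_top)
  obtain ⟨c, hc⟩ := Ideal.mem_span_singleton.1 hr1
  have hr0 : r ≠ 0 := by omega
  have hfinM : Finite (X ⧸ U') := by
    apply Module.finite_of_fg_torsion
    intro z
    exact ⟨⟨r, mem_nonZeroDivisors_of_ne_zero hr0⟩, hr2 z Submodule.mem_top⟩
  have hodd : ¬ 2 ∣ Nat.card (X ⧸ U') := by
    intro h
    obtain ⟨z, hz⟩ := exists_prime_addOrderOf_dvd_card' 2 h
    have h1 : (2 : ℤ) • z = 0 := by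
      have := addOrderOf_nsmul_eq_zero z
      rw [hz] at this
      rw [show (2 : ℤ) = ((2 : ℕ) : ℤ) by norm_num, natCast_zsmul]
      exact this
    have h2 := hr2 z Submodule.mem_top
    have h3 : r = c * 2 + 1 := by omega
    rw [h3, add_smul, mul_smul, h1, smul_zero, zero_add, one_smul] at h2
    rw [h2, addOrderOf_zero] at hz
    omega
  have hUi : U.index = Nat.card (X ⧸ U') * 2 ^ j := by
    have h1 : (U'.map (f j)).index = U'.index * (f j).range.index :=
      AddSubgroup.index_map_of_injective U' (hinjp j)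
    rw [hUU, hidx, hN] at h1
    exact h1
  rw [hUi] at hdvd
  have h5 : 2 ^ (j + 1) ∣ Nat.card (X ⧸ U') * 2 ^ j :=
    (pow_dvd_pow 2 (by omega)).trans hdvd
  rw [pow_succ, mul_comm] at h5
  exact hodd (Nat.dvd_of_mul_dvd_mul_right (by positivity) h5)

end Pool.Agent.L7h60.SQ
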